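import Mathlib

set_option autoImplicit false

open MeasureTheory Set
open scoped ENNReal NNReal

namespace Pool.Agent.Results.MP_ec2b5b_lc.PostedPriceGap

/-! ### The model -/

/-- The (utility, payment) pairs among which a buyer of type `(v, c)` chooses when the menu is
`M`: declining gives utility `c` and payment `0`; the lottery `m = (x, p)` of `M` gives utility
`v * x - p` and payment `p` (the outside option `c` is lost). -/
def outcomes (M : Set (ℝ × ℝ)) (v c : ℝ) : Set (ℝ × ℝ) :=
  {o | o = (c, 0) ∨ ∃ m ∈ M, o = (v * m.1 - m.2, m.2)}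

/-- The payments of the utility-maximizing choices of a buyer of type `(v, c)`. -/
def bestPayments (M : Set (ℝ × ℝ)) (v c : ℝ) : Set ℝ :=
  {t | ∃ w, (w, t) ∈ outcomes M v c ∧ ∀ o ∈ outcomes M v c, o.1 ≤ w}

/-- A menu is a set of lotteries `(x, p)` with `x ∈ [0, 1]` and `p ∈ ℝ` such that every type
`(v, c)`, `v, c ≥ 0`, has a utility-maximizing choice, one of them with the largest payment. -/
structure IsMenu (M : Set (ℝ × ℝ)) : Prop where
  prob : ∀ m ∈ M, 0 ≤ m.1 ∧ m.1 ≤ 1
  attained : ∀ v c : ℝ, 0 ≤ v → 0 ≤ c → ∃ t, IsGreatest (bestPayments M v c) t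

/-- The payment of a buyer of type `(v, c)`: she takes a utility-maximizing choice, with ties
broken in the seller's favour. -/
noncomputable def payment (M : Set (ℝ × ℝ)) (v c : ℝ) : ℝ := sSup (bestPayments M v c)

/-- Expected payment collected from the menu `M` when the value `v ∼ F` and the outside option
`c ∼ G` are independent (its positive part: the value is truncated below at `0`). -/
noncomputable def revenue (F G : Measure ℝ) (M : Set (ℝ × ℝ)) : ℝ≥0∞ :=
  (∫⁻ t, ENNReal.ofReal (payment M t.1 t.2) ∂(F.prod G)) -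
    ∫⁻ t, ENNReal.ofReal (-payment M t.1 t.2) ∂(F.prod G)

/-- The optimal revenue: the supremum of the revenue over all menus. -/
noncomputable def OPT (F G : Measure ℝ) : ℝ≥0∞ :=
  ⨆ (M : Set (ℝ × ℝ)) (_ : IsMenu M), revenue F G M

/-- The best posted price revenue: the supremum over prices `P ≥ 0` of
`P * Pr[v - P ≥ c]`. -/
noncomputable def PP (F G : Measure ℝ) : ℝ≥0∞ :=
  ⨆ P : ℝ≥0, (P : ℝ≥0∞) * (F.prod G) {t : ℝ × ℝ | t.1 - P ≥ t.2}

/-! ### The construction -/

/-- values -/
noncomputable def val (j : ℕ) : ℝ := 4 ^ (j + 1)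
/-- prices -/
noncomputable def prc (j : ℕ) : ℝ := 2 ^ j
/-- allocation probabilities -/
noncomputable def alc (j : ℕ) : ℝ := 1 - 2 ^ j / 4 ^ (j + 1)
/-- outside options -/
noncomputable def out (j : ℕ) : ℝ := 4 ^ (j + 1) - 2 ^ (j + 1)
/-- weights of the outside options -/
noncomputable def wG (k : ℕ) : ℝ := 4 ^ ((k + 1) ^ 2) - 4 ^ (k ^ 2)
/-- cumulative weights of the outside options -/
noncomputable def cG (m : ℕ) : ℝ := 4 ^ (m ^ 2) - 1
/-- weights of the values -/
noncomputable def wF (j : ℕ) : ℝ := 1 / (2 ^ j * cG (j + 1))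

lemma sum_wG (m : ℕ) : ∑ k ∈ Finset.range m, wG k = cG m := by
  induction m with
  | zero => simp [cG]
  | succ m ih => rw [Finset.sum_range_succ, ih]; simp only [wG, cG]; ring

lemma wG_pos (k : ℕ) : 0 < wG k := by
  unfold wG
  have : (4:ℝ) ^ (k ^ 2) < 4 ^ ((k + 1) ^ 2) := by
    apply pow_lt_pow_right₀ (by norm_num)
    exact Nat.pow_lt_pow_left (Nat.lt_succ_self k) two_ne_zero
  linarith

lemma cG_pos (k : ℕ) : 0 < cG (k + 1) := by
  unfold cG
  have : (1:ℝ) < 4 ^ ((k + 1) ^ 2) := by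
    apply one_lt_pow₀ (by norm_num)
    positivity
  linarith

lemma cG_nonneg (k : ℕ) : 0 ≤ cG k := by
  unfold cG
  have : (1:ℝ) ≤ 4 ^ (k ^ 2) := one_le_pow₀ (by norm_num)
  linarith

lemma wF_pos (k : ℕ) : 0 < wF k := by
  unfold wF
  have := cG_pos k
  positivity

lemma cG_ratio (j : ℕ) : cG j * 4 ^ (j + 1) ≤ cG (j + 1) := by
  unfold cG
  have h1 : (4:ℝ) ^ (j ^ 2) * 4 ^ (j + 1) ≤ 4 ^ ((j + 1) ^ 2) := by
    rw [← pow_add]
    apply pow_le_pow_right₀ (by norm_num)
    nlinarith
  have h2 : (1:ℝ) ≤ 4 ^ (j + 1) := one_le_pow₀ (by norm_num)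
  nlinarith

lemma four_eq (j : ℕ) : (4:ℝ) ^ j = 2 ^ j * 2 ^ j := by
  rw [← mul_pow]; norm_num

/-- the loss from choosing lottery `k` for value `i` -/
lemma util_eq (i k : ℕ) :
    val i * alc k - prc k = out i - (2 ^ i - 2 ^ k) ^ 2 / 2 ^ k := by
  unfold val alc prc out
  have h2 : (2:ℝ) ^ k ≠ 0 := by positivity
  rw [pow_succ (4:ℝ) i, pow_succ (4:ℝ) k, pow_succ (2:ℝ) i, four_eq i, four_eq k]
  field_simp
  ring

lemma out_strictMono : StrictMono out := by
  apply strictMono_nat_of_lt_succ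
  intro n
  unfold out
  have h2 : (1:ℝ) ≤ 2 ^ n := one_le_pow₀ (by norm_num)
  rw [pow_succ (4:ℝ) (n+1), pow_succ (4:ℝ) n, pow_succ (2:ℝ) (n+1), pow_succ (2:ℝ) n, four_eq n]
  nlinarith

lemma val_lt_out (n : ℕ) : val n < out (n + 1) := by
  unfold out val
  have h2 : (1:ℝ) ≤ 2 ^ n := one_le_pow₀ (by norm_num)
  rw [pow_succ (4:ℝ) (n+1), pow_succ (4:ℝ) n, pow_succ (2:ℝ) (n+1), pow_succ (2:ℝ) n, four_eq n]
  nlinarith

lemma out_pos (n : ℕ) : 0 < out n := by
  unfold out
  have h2 : (1:ℝ) ≤ 2 ^ n := one_le_pow₀ (by norm_num)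
  rw [pow_succ (4:ℝ) n, pow_succ (2:ℝ) n, four_eq n]
  nlinarith

/-- the menu with `n` lotteries -/
noncomputable def menu (n : ℕ) : Set (ℝ × ℝ) := (fun j => (alc j, prc j)) '' Set.Iio n

lemma menu_finite (n : ℕ) : (menu n).Finite := (Set.finite_Iio n).image _

lemma attained_of_finite {M : Set (ℝ × ℝ)} (hM : M.Finite) (v c : ℝ) :
    ∃ t, IsGreatest (bestPayments M v c) t := by
  have hO : (outcomes M v c).Finite := by
    have : outcomes M v c = insert (c, 0) ((fun m : ℝ × ℝ => (v * m.1 - m.2, m.2)) '' M) := by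
      ext o
      simp only [outcomes, Set.mem_ofPred_eq, Set.mem_insert_iff, Set.mem_image]
      constructor
      · rintro (h | ⟨m, hm, h⟩)
        · exact Or.inl h
        · exact Or.inr ⟨m, hm, h.symm⟩
      · rintro (h | ⟨m, hm, h⟩)
        · exact Or.inl h
        · exact Or.inr ⟨m, hm, h.symm⟩
    rw [this]
    exact (hM.image _).insert _
  have hne : (outcomes M v c).Nonempty := ⟨(c, 0), Or.inl rfl⟩
  obtain ⟨o, ho, hmax⟩ := Set.exists_max_image _ Prod.fst hO hne
  have hB : (bestPayments M v c).Finite := by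
    apply (hO.image Prod.snd).subset
    rintro t ⟨w, hw, -⟩
    exact ⟨_, hw, rfl⟩
  have hBne : (bestPayments M v c).Nonempty := ⟨o.2, o.1, ho, hmax⟩
  obtain ⟨t, ht, htmax⟩ := Set.exists_max_image _ id hB hBne
  exact ⟨t, ht, fun s hs => htmax s hs⟩

lemma menu_isMenu (n : ℕ) : IsMenu (menu n) where
  prob := by
    rintro m ⟨j, -, rfl⟩
    have h2 : (1:ℝ) ≤ 2 ^ j := one_le_pow₀ (by norm_num)
    have h4 : (0:ℝ) < 4 ^ (j + 1) := by positivity
    have hle : (2:ℝ) ^ j / 4 ^ (j + 1) ≤ 1 := by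
      rw [div_le_one h4, pow_succ, four_eq]
      nlinarith
    have hge : (0:ℝ) ≤ 2 ^ j / 4 ^ (j + 1) := by positivity
    constructor <;> simp only [alc] <;> linarith
  attained := fun v c _ _ => attained_of_finite (menu_finite n) v c

lemma payment_menu {n i k : ℕ} (hi : i < n) :
    payment (menu n) (val i) (out k) = if k ≤ i then prc i else 0 := by
  have hloss : ∀ l : ℕ, 0 ≤ ((2:ℝ) ^ i - 2 ^ l) ^ 2 / 2 ^ l := fun l => by positivity
  have hmem : (out i, prc i) ∈ outcomes (menu n) (val i) (out k) := by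
    right
    refine ⟨(alc i, prc i), ⟨i, hi, rfl⟩, ?_⟩
    simp only [util_eq]
    simp
  split_ifs with h
  · apply IsGreatest.csSup_eq
    refine ⟨⟨out i, hmem, ?_⟩, ?_⟩
    · rintro o (rfl | ⟨m, ⟨l, -, rfl⟩, rfl⟩)
      · exact out_strictMono.monotone h
      · simp only [util_eq]
        have := hloss l
        linarith
    · rintro t ⟨w, hw, hwmax⟩
      have h1 : out i ≤ w := hwmax _ hmem
      rcases hw with hw | ⟨m, ⟨l, -, rfl⟩, hw⟩
      · simp only [Prod.mk.injEq] at hw
        rw [hw.2]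
        unfold prc
        positivity
      · simp only [Prod.mk.injEq, util_eq] at hw
        have h3 : ((2:ℝ) ^ i - 2 ^ l) ^ 2 / 2 ^ l = 0 := le_antisymm (by linarith) (hloss l)
        have h4 : ((2:ℝ) ^ i - 2 ^ l) ^ 2 = 0 := by
          have h5 : (2:ℝ) ^ l ≠ 0 := by positivity
          rcases div_eq_zero_iff.mp h3 with h | h
          · exact h
          · exact absurd h h5
        have h6 : (2:ℝ) ^ i = 2 ^ l := by
          have := pow_eq_zero_iff (two_ne_zero) |>.mp h4
          linarith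
        rw [hw.2]
        unfold prc
        exact h6.ge
  · apply IsGreatest.csSup_eq
    push Not at h
    have hlt : out i < out k := out_strictMono h
    refine ⟨⟨out k, Or.inl rfl, ?_⟩, ?_⟩
    · rintro o (rfl | ⟨m, ⟨l, -, rfl⟩, rfl⟩)
      · exact le_rfl
      · simp only [util_eq]
        have := hloss l
        linarith
    · rintro t ⟨w, hw, hwmax⟩
      have h1 : out k ≤ w := hwmax _ (Or.inl rfl)
      rcases hw with hw | ⟨m, ⟨l, -, rfl⟩, hw⟩
      · simp only [Prod.mk.injEq] at hw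
        exact hw.2.le
      · simp only [Prod.mk.injEq, util_eq] at hw
        have := hloss l
        exfalso
        linarith

/-! ### The measures -/

/-- unnormalized distribution of the value -/
noncomputable def F0 (n : ℕ) : Measure ℝ :=
  Measure.sum fun j : Fin n => ENNReal.ofReal (wF j) • Measure.dirac (val j)

/-- unnormalized distribution of the outside option -/
noncomputable def G0 (n : ℕ) : Measure ℝ :=
  Measure.sum fun k : Fin n => ENNReal.ofReal (wG k) • Measure.dirac (out k)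

lemma F0_lintegral (n : ℕ) (φ : ℝ → ℝ≥0∞) :
    ∫⁻ t, φ t ∂(F0 n) = ∑ j : Fin n, ENNReal.ofReal (wF j) * φ (val j) := by
  unfold F0
  rw [lintegral_sum_measure, tsum_fintype]
  simp [lintegral_smul_measure, lintegral_dirac]

lemma G0_lintegral (n : ℕ) (φ : ℝ → ℝ≥0∞) :
    ∫⁻ t, φ t ∂(G0 n) = ∑ j : Fin n, ENNReal.ofReal (wG j) * φ (out j) := by
  unfold G0
  rw [lintegral_sum_measure, tsum_fintype]
  simp [lintegral_smul_measure, lintegral_dirac]

instance (n : ℕ) : IsFiniteMeasure (F0 n) := by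
  constructor
  rw [← lintegral_one, F0_lintegral]
  simp [ENNReal.sum_lt_top]

instance (n : ℕ) : IsFiniteMeasure (G0 n) := by
  constructor
  rw [← lintegral_one, G0_lintegral]
  simp [ENNReal.sum_lt_top]

lemma prod_eq (n : ℕ) : (F0 n).prod (G0 n) =
    Measure.sum fun p : Fin n × Fin n =>
      (ENNReal.ofReal (wF p.1) * ENNReal.ofReal (wG p.2)) • Measure.dirac (val p.1, out p.2) := by
  unfold F0 G0
  rw [Measure.prod_sum]
  congr 1
  ext1 p
  rw [Measure.prod_smul_left, Measure.prod_smul_right, Measure.dirac_prod_dirac, smul_smul]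

lemma prod_lintegral (n : ℕ) (φ : ℝ × ℝ → ℝ≥0∞) :
    ∫⁻ t, φ t ∂((F0 n).prod (G0 n)) =
      ∑ j : Fin n, ∑ k : Fin n,
        ENNReal.ofReal (wF j) * ENNReal.ofReal (wG k) * φ (val j, out k) := by
  rw [prod_eq, lintegral_sum_measure, tsum_fintype, Fintype.sum_prod_type]
  simp [lintegral_smul_measure, lintegral_dirac]

lemma revenue_menu (n : ℕ) : revenue (F0 n) (G0 n) (menu n) = n := by
  have hneg : ∫⁻ t, ENNReal.ofReal (-payment (menu n) t.1 t.2) ∂((F0 n).prod (G0 n)) = 0 := by
    rw [prod_lintegral]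
    apply Finset.sum_eq_zero
    intro j _
    apply Finset.sum_eq_zero
    intro k _
    rw [payment_menu j.2]
    have : -(if (k:ℕ) ≤ j then prc j else 0) ≤ 0 := by
      have : 0 ≤ prc j := by unfold prc; positivity
      split_ifs <;> linarith
    rw [ENNReal.ofReal_of_nonpos this, mul_zero]
  unfold revenue
  rw [hneg, tsub_zero, prod_lintegral]
  have hterm : ∀ j : Fin n, ∑ k : Fin n,
      ENNReal.ofReal (wF j) * ENNReal.ofReal (wG k) *
        ENNReal.ofReal (payment (menu n) (val j) (out k)) = 1 := by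
    intro j
    have hprc : 0 ≤ prc j := by unfold prc; positivity
    have h1 : ∀ k : Fin n, ENNReal.ofReal (wF j) * ENNReal.ofReal (wG k) *
        ENNReal.ofReal (payment (menu n) (val j) (out k)) =
        ENNReal.ofReal (if (k:ℕ) ≤ j then wF j * wG k * prc j else 0) := by
      intro k
      rw [payment_menu j.2, ← ENNReal.ofReal_mul (wF_pos j).le, ← ENNReal.ofReal_mul]
      · split_ifs <;> simp
      · exact mul_nonneg (wF_pos j).le (wG_pos k).le
    rw [Finset.sum_congr rfl (fun k _ => h1 k), ← ENNReal.ofReal_sum_of_nonneg]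
    · have h2 : ∑ k : Fin n, (if (k:ℕ) ≤ j then wF j * wG k * prc j else 0) = 1 := by
        rw [Fin.sum_univ_eq_sum_range (fun k => if k ≤ (j:ℕ) then wF j * wG k * prc j else 0) n]
        rw [← Finset.sum_filter]
        have h3 : (Finset.range n).filter (fun k => k ≤ (j:ℕ)) = Finset.range (j + 1) := by
          ext k
          simp only [Finset.mem_filter, Finset.mem_range]
          have := j.2
          omega
        rw [h3, ← Finset.sum_mul, ← Finset.mul_sum, sum_wG]
        unfold wF prc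
        have := (cG_pos j).ne'
        field_simp
      rw [h2, ENNReal.ofReal_one]
    · intro k _
      split_ifs
      · exact mul_nonneg (mul_nonneg (wF_pos j).le (wG_pos k).le) hprc
      · exact le_rfl
  rw [Finset.sum_congr rfl (fun j _ => hterm j)]
  simp

/-- geometric bound -/
lemma geom_bound (P : ℝ) (n : ℕ) :
    ∑ j ∈ Finset.range n, (if P ≤ 2 ^ (j + 1) then P / 2 ^ j else 0) ≤
      max 0 (4 - 2 * (P / 2 ^ n)) := by
  induction n with
  | zero => simp
  | succ n ih =>
    rw [Finset.sum_range_succ]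
    have hpos : (0:ℝ) < 2 ^ n := by positivity
    have hdiv : P / 2 ^ (n + 1) = P / 2 ^ n / 2 := by rw [pow_succ, div_div]
    split_ifs with h
    · have h1 : P / 2 ^ n ≤ 2 := by
        rw [div_le_iff₀ hpos]
        rw [pow_succ] at h
        linarith
      have h2 : max 0 (4 - 2 * (P / 2 ^ n)) = 4 - 2 * (P / 2 ^ n) := max_eq_right (by linarith)
      rw [h2] at ih
      apply le_max_of_le_right
      rw [hdiv]
      linarith
    · have h1 : 2 < P / 2 ^ n := by
        rw [lt_div_iff₀ hpos]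
        rw [pow_succ] at h
        push Not at h
        linarith
      have h2 : max 0 (4 - 2 * (P / 2 ^ n)) = 0 := max_eq_left (by linarith)
      rw [h2] at ih
      apply le_max_of_le_left
      linarith

lemma geom_bound2 (n : ℕ) : ∑ j ∈ Finset.range n, (1:ℝ) / 2 ^ j ≤ 2 := by
  have h : ∑ j ∈ Finset.range n, (1:ℝ) / 2 ^ j = 2 - 2 / 2 ^ n := by
    induction n with
    | zero => simp
    | succ n ih => rw [Finset.sum_range_succ, ih, pow_succ]; field_simp; ring
  rw [h]
  have : (0:ℝ) < 2 / 2 ^ n := by positivity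
  linarith

/-- cumulative weight of the outside options at most `y` -/
lemma G0_le {n : ℕ} (y : ℝ) (m : ℕ) (hy : y < out m) :
    ∑ k ∈ Finset.range n, (if out k ≤ y then wG k else 0) ≤ cG m := by
  rw [← Finset.sum_filter, ← sum_wG]
  apply Finset.sum_le_sum_of_subset_of_nonneg
  · intro k hk
    simp only [Finset.mem_filter, Finset.mem_range] at hk ⊢
    exact out_strictMono.lt_iff_lt.mp (lt_of_le_of_lt hk.2 hy)
  · intro k _ _
    exact (wG_pos k).le

lemma posted_bound (n : ℕ) (P : ℝ) (hP : 0 ≤ P) :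
    ∑ j ∈ Finset.range n, P * (wF j *
      ∑ k ∈ Finset.range n, (if out k ≤ val j - P then wG k else 0)) ≤ 6 := by
  have hterm : ∀ j ∈ Finset.range n, P * (wF j *
      ∑ k ∈ Finset.range n, (if out k ≤ val j - P then wG k else 0)) ≤
      (if P ≤ 2 ^ (j + 1) then P / 2 ^ j else 0) + 1 / 2 ^ j := by
    intro j _
    have hwF := wF_pos j
    have hcG := cG_pos j
    have h2j : (0:ℝ) < 2 ^ j := by positivity
    by_cases h : P ≤ 2 ^ (j + 1)
    · rw [if_pos h]
      have h1 : ∑ k ∈ Finset.range n, (if out k ≤ val j - P then wG k else 0) ≤ cG (j + 1) :=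
        G0_le _ _ (lt_of_le_of_lt (by linarith) (val_lt_out j))
      have h2 : P * (wF j * ∑ k ∈ Finset.range n, (if out k ≤ val j - P then wG k else 0)) ≤
          P * (wF j * cG (j + 1)) := by gcongr
      have h3 : P * (wF j * cG (j + 1)) = P / 2 ^ j := by
        unfold wF
        field_simp
      have h4 : (0:ℝ) ≤ 1 / 2 ^ j := by positivity
      linarith
    · rw [if_neg h]
      push Not at h
      have h1 : ∑ k ∈ Finset.range n, (if out k ≤ val j - P then wG k else 0) ≤ cG j := by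
        apply G0_le
        unfold val out
        linarith
      by_cases hPv : P ≤ val j
      · have h2 : P * (wF j * ∑ k ∈ Finset.range n, (if out k ≤ val j - P then wG k else 0)) ≤
            4 ^ (j + 1) * (wF j * cG j) := by
          have hc0 := cG_nonneg j
          unfold val at hPv
          have hs0 : 0 ≤ ∑ k ∈ Finset.range n, (if out k ≤ val j - P then wG k else 0) := by
            apply Finset.sum_nonneg
            intro k _
            split_ifs
            · exact (wG_pos k).le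
            · exact le_rfl
          gcongr
        have h3 : 4 ^ (j + 1) * (wF j * cG j) ≤ 1 / 2 ^ j := by
          have h4 := cG_ratio j
          have h5 : 4 ^ (j + 1) * (wF j * cG j) = wF j * (cG j * 4 ^ (j + 1)) := by ring
          rw [h5]
          calc wF j * (cG j * 4 ^ (j + 1)) ≤ wF j * cG (j + 1) := by gcongr
            _ = 1 / 2 ^ j := by unfold wF; field_simp
        linarith
      · push Not at hPv
        have h2 : ∑ k ∈ Finset.range n, (if out k ≤ val j - P then wG k else 0) = 0 := by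
          apply Finset.sum_eq_zero
          intro k _
          rw [if_neg]
          have := out_pos k
          linarith
        rw [h2]
        simp only [mul_zero]
        positivity
  calc _ ≤ ∑ j ∈ Finset.range n, ((if P ≤ 2 ^ (j + 1) then P / 2 ^ j else 0) + 1 / 2 ^ j) :=
        Finset.sum_le_sum hterm
    _ = ∑ j ∈ Finset.range n, (if P ≤ 2 ^ (j + 1) then P / 2 ^ j else 0) +
        ∑ j ∈ Finset.range n, (1:ℝ) / 2 ^ j := Finset.sum_add_distrib
    _ ≤ 4 + 2 := by
        have h1 := geom_bound P n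
        have h2 := geom_bound2 n
        have h3 : max 0 (4 - 2 * (P / 2 ^ n)) ≤ 4 := by
          apply max_le (by norm_num)
          have : 0 ≤ P / 2 ^ n := by positivity
          linarith
        linarith
    _ = 6 := by norm_num

lemma PP_le (n : ℕ) : PP (F0 n) (G0 n) ≤ 6 := by
  unfold PP
  apply iSup_le
  intro P
  have hms : MeasurableSet {t : ℝ × ℝ | t.1 - (P:ℝ) ≥ t.2} :=
    measurableSet_le measurable_snd (measurable_fst.sub_const _)
  rw [← lintegral_indicator_one hms, prod_lintegral]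
  have h1 : ∀ j k : Fin n, ENNReal.ofReal (wF j) * ENNReal.ofReal (wG k) *
      ({t : ℝ × ℝ | t.1 - (P:ℝ) ≥ t.2}.indicator 1 (val j, out k) : ℝ≥0∞) =
      ENNReal.ofReal (wF j * (if out k ≤ val j - P then wG k else 0)) := by
    intro j k
    rw [ENNReal.ofReal_mul (wF_pos j).le]
    by_cases h : out k ≤ val j - P
    · rw [if_pos h, Set.indicator_of_mem (by exact h)]
      simp
    · rw [if_neg h, Set.indicator_of_notMem (by exact h)]
      simp
  simp_rw [h1]
  have hnn : ∀ j k : ℕ, 0 ≤ wF j * (if out k ≤ val j - P then wG k else 0) := by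
    intro j k
    apply mul_nonneg (wF_pos j).le
    split_ifs
    · exact (wG_pos k).le
    · exact le_rfl
  have h2 : ∑ j : Fin n, ∑ k : Fin n,
      ENNReal.ofReal (wF j * (if out k ≤ val j - P then wG k else 0)) =
      ENNReal.ofReal (∑ j : Fin n, ∑ k : Fin n,
        (wF j * (if out k ≤ val j - P then wG k else 0))) := by
    rw [ENNReal.ofReal_sum_of_nonneg]
    · apply Finset.sum_congr rfl
      intro j _
      rw [ENNReal.ofReal_sum_of_nonneg]
      intro k _
      exact hnn j k
    · intro j _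
      exact Finset.sum_nonneg fun k _ => hnn j k
  rw [h2]
  have h3 : (P : ℝ≥0∞) = ENNReal.ofReal (P : ℝ) := (ENNReal.ofReal_coe_nnreal).symm
  rw [h3, ← ENNReal.ofReal_mul P.coe_nonneg]
  have h4 : (P:ℝ) * (∑ j : Fin n, ∑ k : Fin n,
      (wF j * (if out k ≤ val j - P then wG k else 0))) ≤ 6 := by
    have h5 := posted_bound n P P.coe_nonneg
    rw [Finset.mul_sum]
    rw [Fin.sum_univ_eq_sum_range (fun j => (P:ℝ) * ∑ k : Fin n,
      (wF j * (if out k ≤ val j - P then wG k else 0))) n]
    refine le_trans (le_of_eq ?_) h5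
    apply Finset.sum_congr rfl
    intro j _
    rw [Fin.sum_univ_eq_sum_range (fun k =>
      (wF j * (if out k ≤ val j - P then wG k else 0))) n, ← Finset.mul_sum]
  calc ENNReal.ofReal _ ≤ ENNReal.ofReal 6 := ENNReal.ofReal_le_ofReal h4
    _ = 6 := by norm_num

/-! ### Scaling and the result -/

lemma prod_scale (n : ℕ) (a b : ℝ≥0∞) :
    (a • F0 n).prod (b • G0 n) = (a * b) • ((F0 n).prod (G0 n)) := by
  rw [Measure.prod_smul_left, Measure.prod_smul_right, smul_smul]

lemma revenue_scale (n : ℕ) (a b : ℝ≥0∞) (ha : a ≠ ∞) (hb : b ≠ ∞) (M : Set (ℝ × ℝ)) :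
    revenue (a • F0 n) (b • G0 n) M = (a * b) * revenue (F0 n) (G0 n) M := by
  unfold revenue
  rw [prod_scale, lintegral_smul_measure, lintegral_smul_measure, smul_eq_mul, smul_eq_mul,
    ENNReal.mul_sub]
  intro _ _
  exact ENNReal.mul_ne_top ha hb

lemma PP_scale (n : ℕ) (a b : ℝ≥0∞) :
    PP (a • F0 n) (b • G0 n) = (a * b) * PP (F0 n) (G0 n) := by
  unfold PP
  rw [prod_scale, ENNReal.mul_iSup]
  congr 1
  ext1 P
  rw [Measure.smul_apply, smul_eq_mul]
  ring

lemma F0_univ_pos (n : ℕ) : F0 (n + 1) Set.univ ≠ 0 := by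
  rw [← lintegral_one, F0_lintegral]
  intro h
  rw [Finset.sum_eq_zero_iff] at h
  have := h 0 (Finset.mem_univ _)
  simp only [mul_one, ENNReal.ofReal_eq_zero] at this
  exact absurd this (not_le.mpr (wF_pos _))

lemma G0_univ_pos (n : ℕ) : G0 (n + 1) Set.univ ≠ 0 := by
  rw [← lintegral_one, G0_lintegral]
  intro h
  rw [Finset.sum_eq_zero_iff] at h
  have := h 0 (Finset.mem_univ _)
  simp only [mul_one, ENNReal.ofReal_eq_zero] at this
  exact absurd this (not_le.mpr (wG_pos _))

lemma F0_neg (n : ℕ) : F0 n (Set.Iio 0) = 0 := by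
  rw [← lintegral_indicator_one measurableSet_Iio, F0_lintegral]
  apply Finset.sum_eq_zero
  intro j _
  rw [Set.indicator_of_notMem, mul_zero]
  simp only [Set.mem_Iio, not_lt]
  unfold val
  positivity

lemma G0_neg (n : ℕ) : G0 n (Set.Iio 0) = 0 := by
  rw [← lintegral_indicator_one measurableSet_Iio, G0_lintegral]
  apply Finset.sum_eq_zero
  intro j _
  rw [Set.indicator_of_notMem, mul_zero]
  simp only [Set.mem_Iio, not_lt]
  exact (out_pos _).le

/-- Posted pricing is not a constant-factor approximation to the optimal revenue: for every `C`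
there are distributions `F` (of the value) and `G` (of the outside option) on `[0, ∞)` with
`OPT F G > C * PP F G`. -/
theorem result : ∀ C : ℝ≥0, ∃ F G : Measure ℝ, IsProbabilityMeasure F ∧ IsProbabilityMeasure G ∧
    F (Set.Iio 0) = 0 ∧ G (Set.Iio 0) = 0 ∧ (C : ℝ≥0∞) * PP F G < OPT F G := by
  intro C
  obtain ⟨n, hn⟩ := exists_nat_gt (6 * C)
  have hn' : (C : ℝ≥0∞) * 6 < ((n + 1 : ℕ) : ℝ≥0∞) := by
    have h1 : (6 * C : ℝ≥0) < ((n + 1 : ℕ) : ℝ≥0) := by
      push_cast
      exact lt_of_lt_of_le hn (by simp)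
    have h2 : ((6 * C : ℝ≥0) : ℝ≥0∞) < (((n + 1 : ℕ) : ℝ≥0) : ℝ≥0∞) := ENNReal.coe_lt_coe.mpr h1
    push_cast at h2 ⊢
    rw [mul_comm]
    exact h2
  set a : ℝ≥0∞ := (F0 (n + 1) Set.univ)⁻¹ with ha
  set b : ℝ≥0∞ := (G0 (n + 1) Set.univ)⁻¹ with hb
  have ha0 : a ≠ 0 := ENNReal.inv_ne_zero.mpr (measure_ne_top _ _)
  have hb0 : b ≠ 0 := ENNReal.inv_ne_zero.mpr (measure_ne_top _ _)
  have hat : a ≠ ∞ := ENNReal.inv_ne_top.mpr (F0_univ_pos n)
  have hbt : b ≠ ∞ := ENNReal.inv_ne_top.mpr (G0_univ_pos n)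
  refine ⟨a • F0 (n + 1), b • G0 (n + 1), ⟨?_⟩, ⟨?_⟩, ?_, ?_, ?_⟩
  · rw [Measure.smul_apply, smul_eq_mul, ha]
    exact ENNReal.inv_mul_cancel (F0_univ_pos n) (measure_ne_top _ _)
  · rw [Measure.smul_apply, smul_eq_mul, hb]
    exact ENNReal.inv_mul_cancel (G0_univ_pos n) (measure_ne_top _ _)
  · rw [Measure.smul_apply, F0_neg, smul_zero]
  · rw [Measure.smul_apply, G0_neg, smul_zero]
  · have h1 : revenue (a • F0 (n + 1)) (b • G0 (n + 1)) (menu (n + 1)) ≤
        OPT (a • F0 (n + 1)) (b • G0 (n + 1)) :=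
      le_iSup₂ (f := fun M (_ : IsMenu M) => revenue (a • F0 (n + 1)) (b • G0 (n + 1)) M)
        (menu (n + 1)) (menu_isMenu (n + 1))
    refine lt_of_lt_of_le ?_ h1
    rw [revenue_scale _ _ _ hat hbt, revenue_menu, PP_scale]
    calc (C : ℝ≥0∞) * (a * b * PP (F0 (n + 1)) (G0 (n + 1)))
        ≤ (C : ℝ≥0∞) * (a * b * 6) := by gcongr; exact PP_le _
      _ = a * b * (C * 6) := by ring
      _ < a * b * ((n + 1 : ℕ) : ℝ≥0∞) := by
        rw [ENNReal.mul_lt_mul_iff_right (mul_ne_zero ha0 hb0) (ENNReal.mul_ne_top hat hbt)]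
        exact hn'

end Pool.Agent.Results.MP_ec2b5b_lc.PostedPriceGap
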